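import Pool.Agent.Helper10.SP.GoalsK
import Pool.Agent.Helper19.Lin.IDT
import Pool.Agent.Helper94.Lin.Cryst

/-! # FIBT: two independent translations of each fibre in the discrete case -/

set_option autoImplicit false

open Complex Metric Set Filter Topology MeasureTheory
open scoped ContDiff ComplexConjugate ComplexOrder Manifold

namespace Pool.Agent.Helper13.SP

open Pool.Agent.Helper95.Lin Pool.Agent.Helper16.Abund Pool.Agent.Helper92.Orb
open Pool.Agent.Helper10.SP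

section fibt

variable {b N : ℕ} {c : Fin N → Cn b} {R : ℝ} {P : Set (Cn b) → Tri b → Prop}
  {Φ : Cn b → ℝ} {C : ℝ}

/-- The maps over `ball (c i) 4` with trivial base map. -/
def FF (c : Fin N → Cn b) (P : Set (Cn b) → Tri b → Prop) (i : Fin N) (t : Tri b) : Prop :=
  P (ball (c i) 4) t ∧ ∀ y ∈ ball (c i) 4, t.g y = y

theorem ball_sub (hA : AFol c R P Φ C) (i : Fin N) : ball (c i) 4 ⊆ Bd c R := by
  intro y hy
  have h1 := hA.Rge
  have h2 := hA.Cge
  exact mem_iUnion.2 ⟨i, ball_subset_ball (by linarith) hy⟩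

theorem ball24 (i : Fin N) : ball (c i) 2 ⊆ ball (c i) 4 := ball_subset_ball (by norm_num)

theorem ball2_Bd (i : Fin N) : ball (c i) 2 ⊆ Bd c 2 := fun _ hy => mem_iUnion.2 ⟨i, hy⟩

theorem FF.big {i : Fin N} {t : Tri b} (h : FF c P i t) : Big c P i t := by
  refine ⟨h.1, c i, mem_ball_self (by norm_num), ?_⟩
  rw [h.2 (c i) (mem_ball_self (by norm_num))]
  exact ball2_Bd i (mem_ball_self (by norm_num))

theorem FF.norm_a (hA : AFol c R P Φ C) {i : Fin N} {t : Tri b} (h : FF c P i t) :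
    ∀ y ∈ ball (c i) 4, ‖t.a y‖ = 1 := by
  intro y hy
  obtain ⟨-, h2⟩ := hA.pot _ t h.1 y hy
  have h3 : fderiv ℂ t.g y = ContinuousLinearMap.id ℂ (Cn b) := by
    have : t.g =ᶠ[𝓝 y] id := by
      filter_upwards [isOpen_ball.mem_nhds hy] with z hz
      exact h.2 z hz
    rw [this.fderiv_eq, fderiv_id]
  have hdet : (fderiv ℂ t.g y).det = 1 := by
    rw [h3]
    exact LinearMap.det_id
  rw [hdet, h.2 y hy] at h2
  have h4 : t.a y ≠ 0 := ((hA.holo _ t h.1).2.2.2.2.2 y hy).2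
  have h5 : Real.log (‖t.a y‖ ^ 2) = 0 := by
    simp only [norm_one, one_pow, Real.log_one] at h2
    linarith
  have h6 : 0 < ‖t.a y‖ := norm_pos_iff.2 h4
  have h7 : ‖t.a y‖ ^ 2 = 1 := by
    rcases Real.log_eq_zero.1 h5 with h | h | h
    · exact absurd h (by positivity)
    · exact h
    · exact absurd h (by nlinarith [sq_nonneg ‖t.a y‖])
  nlinarith

theorem FF.const_a (hA : AFol c R P Φ C) {i : Fin N} {t : Tri b} (h : FF c P i t) {z : Cn b}
    (hz : z ∈ ball (c i) 4) : ∀ y ∈ ball (c i) 4, t.a y = t.a z := by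
  have h1 := (hA.holo _ t h.1).2.2.2.1
  have h2 : IsMaxOn (norm ∘ t.a) (ball (c i) 4) z := by
    intro y hy
    simp only [mem_ofPred_eq, Function.comp]
    rw [h.norm_a hA y hy, h.norm_a hA z hz]
  intro y hy
  exact Complex.eqOn_of_isPreconnected_of_isMaxOn_norm (convex_ball (c i) 4).isPreconnected
    isOpen_ball h1 hz h2 hy

theorem FF.one (hA : AFol c R P Φ C) (i : Fin N) : FF c P i Tri.one :=
  ⟨hA.one _ isOpen_ball (ball_sub hA i), fun _ _ => rfl⟩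

theorem FF.comp (hA : AFol c R P Φ C) {i : Fin N} {t s : Tri b} (ht : FF c P i t)
    (hs : FF c P i s) : FF c P i (t.comp s) := by
  refine ⟨hA.comp _ _ _ t s ht.1 hs.1 isOpen_ball Subset.rfl ?_, ?_⟩
  · intro y hy
    rw [hs.2 y hy]; exact hy
  · intro y hy
    show t.g (s.g y) = y
    rw [hs.2 y hy, ht.2 y hy]

/-- If a map over the ball is trivial on the base near a point, it is trivial on the ball. -/
theorem FF.of_germ (hA : AFol c R P Φ C) {i : Fin N} {t : Tri b} (h : P (ball (c i) 4) t)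
    {z : Cn b} (hz : z ∈ ball (c i) 4) (hg : ∀ᶠ y in 𝓝 z, t.g y = y) : FF c P i t := by
  refine ⟨h, ?_⟩
  have h1 : DifferentiableOn ℂ (fun y => t.g y - y) (ball (c i) 4) :=
    (hA.holo _ t h).2.2.1.sub differentiableOn_id
  intro y hy
  have h2 := Pool.Agent.Helper19.Lin.idt (ball (c i) 4) isOpen_ball
    (convex_ball (c i) 4).isPreconnected (fun y => t.g y - y) h1 z hz (by
      filter_upwards [hg] with w hw
      rw [hw, sub_self]) y hy
  exact sub_eq_zero.1 h2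

/-- Inverses in `FF`. -/
theorem FF.exists_inv (hA : AFol c R P Φ C) {i : Fin N} {t : Tri b} (ht : FF c P i t) {z : Cn b}
    (hz : z ∈ ball (c i) 2) : ∃ s, FF c P i s ∧ s.a z * t.a z = 1 ∧ s.a z * t.β z + s.β z = 0 := by
  have hz4 := ball24 i hz
  obtain ⟨r, U', U'', h1, h2, h3, h4, h5, h6, h7⟩ := hA.inv _ t ht.1 z hz4
  rw [ht.2 z hz4] at h2
  have h8 := h7 z h4
  have h9 : r.g z = z := by
    have : r.g (t.g z) = z := h8.1
    rwa [ht.2 z hz4] at this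
  obtain ⟨s, V, k1, k2, k3, k4, k5⟩ := hA.ext i z hz U' r h1 h2 (by
    rw [h9]; exact ball2_Bd i hz)
  have hFs : FF c P i s := by
    refine FF.of_germ hA k1 hz4 ?_
    filter_upwards [k2.mem_nhds k3, h3.mem_nhds h4] with y hy hy'
    have e1 := (k5 y hy).1
    have e2 : r.g (t.g y) = y := (h7 y hy').1
    rw [ht.2 y (h5 hy')] at e2
    rw [e1, e2]
  refine ⟨s, hFs, ?_, ?_⟩
  · have e1 := (k5 z k3).2.1
    have e2 : r.a (t.g z) * t.a z = 1 := h8.2.1
    rw [ht.2 z hz4] at e2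
    rw [e1, e2]
  · have e1 := (k5 z k3).2.1
    have e1' := (k5 z k3).2.2
    have e2 : r.a (t.g z) * t.β z + r.β (t.g z) = 0 := h8.2.2
    rw [ht.2 z hz4] at e2
    rw [e1, e1', e2]

/-- The group of the affine maps of the fibre over `z`. -/
def NN (hA : AFol c R P Φ C) (i : Fin N) (z : Cn b) (hz : z ∈ ball (c i) 2) :
    Subgroup (Equiv.Perm ℂ) where
  carrier := {f | ∃ t, FF c P i t ∧ ∀ w, f w = t.a z * w + t.β z}
  one_mem' := ⟨Tri.one, FF.one hA i, fun w => by simp [Tri.one]⟩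
  mul_mem' := by
    rintro f f' ⟨t, ht, hf⟩ ⟨t', ht', hf'⟩
    refine ⟨t.comp t', ht.comp hA ht', ?_⟩
    intro w
    rw [Equiv.Perm.mul_apply, hf', hf]
    show _ = t.a (t'.g z) * t'.a z * w + (t.a (t'.g z) * t'.β z + t.β (t'.g z))
    rw [ht'.2 z (ball24 i hz)]
    ring
  inv_mem' := by
    rintro f ⟨t, ht, hf⟩
    obtain ⟨s, hs, h1, h2⟩ := ht.exists_inv hA hz
    refine ⟨s, hs, ?_⟩
    intro w
    have h3 : f (f⁻¹ w) = w := by simp
    rw [hf] at h3
    calc f⁻¹ w = (s.a z * t.a z) * f⁻¹ w + (s.a z * t.β z + s.β z) := by rw [h1, h2]; ring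
      _ = s.a z * (t.a z * f⁻¹ w + t.β z) + s.β z := by ring
      _ = _ := by rw [h3]

theorem proper (hA : AFol c R P Φ C) {i : Fin N} {z : Cn b} (hz : z ∈ ball (c i) 2)
    (r : ℝ) : {ν : NN hA i z hz | ∃ w : ℂ, ‖w‖ ≤ r ∧
      ‖((ν : Equiv.Perm ℂ) 1 - (ν : Equiv.Perm ℂ) 0) * w + (ν : Equiv.Perm ℂ) 0‖ ≤ r}.Finite := by
  by_contra hinf
  have hinf' : Set.Infinite {ν : NN hA i z hz | ∃ w : ℂ, ‖w‖ ≤ r ∧
      ‖((ν : Equiv.Perm ℂ) 1 - (ν : Equiv.Perm ℂ) 0) * w + (ν : Equiv.Perm ℂ) 0‖ ≤ r} := hinf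
  set e := hinf'.natEmbedding with he
  have hex : ∀ k : ℕ, ∃ t, FF c P i t ∧
      ∀ w, ((e k : NN hA i z hz) : Equiv.Perm ℂ) w = t.a z * w + t.β z := fun k =>
    (e k : NN hA i z hz).2
  choose t ht hte using hex
  have hz4 := ball24 i hz
  have hβ : ∀ k, ‖(t k).β z‖ ≤ 2 * r := by
    intro k
    obtain ⟨w, hw1, hw2⟩ := (e k).2
    rw [hte k, hte k] at hw2
    have h1 : ((t k).a z * 1 + (t k).β z - ((t k).a z * 0 + (t k).β z)) * w +
        ((t k).a z * 0 + (t k).β z) = (t k).a z * w + (t k).β z := by ring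
    rw [h1] at hw2
    have h2 : (t k).β z = ((t k).a z * w + (t k).β z) - (t k).a z * w := by ring
    rw [h2]
    refine (norm_sub_le _ _).trans ?_
    rw [norm_mul, (ht k).norm_a hA z hz4, one_mul]
    linarith
  obtain ⟨k, l, hkl, heq⟩ := hA.fin i (C * (1 + 2 * r)) t (fun k => ⟨(ht k).big, by
    refine (hA.bgr i (t k) (ht k).big (c i) (mem_ball_self (by norm_num)) z hz4).trans ?_
    have hC : 0 ≤ C := by linarith [hA.Cge]
    apply mul_le_mul_of_nonneg_left _ hC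
    linarith [hβ k]⟩)
  apply hkl
  apply e.injective
  apply Subtype.ext
  apply Subtype.ext
  ext w
  rw [hte k, hte l, (heq z hz4).2.1, (heq z hz4).2.2]

theorem cocomp (hA : AFol c R P Φ C) {n : Fin N → ℕ} {s : ∀ i, Fin (n i) → Tri b}
    (hG : GCl c P n s) {i : Fin N} {z : Cn b} (hz : z ∈ ball (c i) 2) :
    ∃ r : ℝ, ∀ w : ℂ, ∃ t, FF c P i t ∧ ‖t.a z * w + t.β z‖ ≤ r := by
  classical
  have hz4 := ball24 i hz
  have hzR : z ∈ Bd c R := ball_sub hA i hz4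
  -- the maps `s_w`
  have h1 : ∀ w : ℂ, ∃ t : Tri b, Big c P i t ∧ t.g z ∈ Bd c 1 ∧ ‖t.a z * w + t.β z‖ < 1 ∧
      ∃ k, ∀ y ∈ ball (c i) 4, t.g y = (s i k).g y := by
    intro w
    obtain ⟨U, t, h1, h2, h3, h4⟩ := hA.coc z hzR w
    have h3' : t.g z ∈ Bd c 2 := by
      obtain ⟨j, hj⟩ := mem_iUnion.1 h3
      exact mem_iUnion.2 ⟨j, ball_subset_ball (by norm_num) hj⟩
    obtain ⟨t', U', k1, k2, k3, k4, k5⟩ := hA.ext i z hz U t h1 h2 h3'
    obtain ⟨e1, e2, e3⟩ := k5 z k3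
    have hB : Big c P i t' := ⟨k1, z, hz, by rw [e1]; exact h3'⟩
    exact ⟨t', hB, by rw [e1]; exact h3, by rw [e2, e3]; exact h4, hG.cov i t' hB⟩
  choose q hq1 hq2 hq3 κ hκ using h1
  -- representatives and their inverses
  have h2 : ∀ k : Fin (n i), ∃ (B : ℝ), ∀ w, κ w = k → ∃ t, FF c P i t ∧
      ‖t.a z * w + t.β z‖ ≤ B := by
    intro k
    by_cases hk : ∃ w₀, κ w₀ = k
    · obtain ⟨w₀, hw₀⟩ := hk
      obtain ⟨r, U', U'', a1, a2, a3, a4, a5, a6, a7⟩ := hA.inv _ (q w₀) (hq1 w₀).1 z hz4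
      refine ⟨‖r.a ((q w₀).g z)‖ + ‖r.β ((q w₀).g z)‖, ?_⟩
      intro w hw
      have hgg : ∀ y ∈ ball (c i) 4, (q w).g y = (q w₀).g y := by
        intro y hy
        rw [hκ w y hy, hκ w₀ y hy, hw, hw₀]
      have hcomp : P U'' (r.comp (q w)) := by
        refine hA.comp _ _ _ r (q w) a1 (hq1 w).1 a3 a5 ?_
        intro y hy
        rw [hgg y (a5 hy)]
        exact a6 hy
      have hid : ∀ y ∈ U'', (r.comp (q w)).g y = y := by
        intro y hy
        show r.g ((q w).g y) = y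
        rw [hgg y (a5 hy)]
        exact (a7 y hy).1
      obtain ⟨t, V, k1, k2, k3, k4, k5⟩ := hA.ext i z hz U'' _ hcomp a4 (by
        rw [hid z a4]; exact ball2_Bd i hz)
      refine ⟨t, FF.of_germ hA k1 hz4 ?_, ?_⟩
      · filter_upwards [k2.mem_nhds k3] with y hy
        rw [(k5 y hy).1]
        exact hid y (k4 hy)
      · obtain ⟨-, e2, e3⟩ := k5 z k3
        rw [e2, e3]
        show ‖r.a ((q w).g z) * (q w).a z * w + (r.a ((q w).g z) * (q w).β z +
          r.β ((q w).g z))‖ ≤ _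
        rw [hgg z hz4]
        have e4 : r.a ((q w₀).g z) * (q w).a z * w + (r.a ((q w₀).g z) * (q w).β z +
          r.β ((q w₀).g z)) = r.a ((q w₀).g z) * ((q w).a z * w + (q w).β z) +
          r.β ((q w₀).g z) := by ring
        rw [e4]
        refine (norm_add_le _ _).trans ?_
        rw [norm_mul]
        have e5 : ‖r.a ((q w₀).g z)‖ * ‖(q w).a z * w + (q w).β z‖ ≤
            ‖r.a ((q w₀).g z)‖ * 1 := mul_le_mul_of_nonneg_left (hq3 w).le (norm_nonneg _)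
        linarith
    · exact ⟨0, fun w hw => absurd ⟨w, hw⟩ hk⟩
  choose B hB using h2
  refine ⟨∑ k, |B k|, ?_⟩
  intro w
  obtain ⟨t, ht, hle⟩ := hB (κ w) w rfl
  refine ⟨t, ht, hle.trans ((le_abs_self _).trans ?_)⟩
  exact Finset.single_le_sum (f := fun k => |B k|) (fun k _ => abs_nonneg _) (Finset.mem_univ _)

end fibt

theorem fibt (hGFIN : S_GFIN) : S_FIBT := by
  intro b N c R P Φ C hA hdisc i z hz
  obtain ⟨n, s, hG⟩ := hGFIN c R P Φ C hA hdisc
  have hz4 := ball24 (c := c) i hz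
  have hprop := proper hA hz
  obtain ⟨r, hr⟩ := cocomp hA hG hz
  have hval : ∀ (ν : NN hA i z hz) (t : Tri b),
      (∀ w, (ν : Equiv.Perm ℂ) w = t.a z * w + t.β z) →
      (ν : Equiv.Perm ℂ) 1 - (ν : Equiv.Perm ℂ) 0 = t.a z ∧ (ν : Equiv.Perm ℂ) 0 = t.β z := by
    intro ν t h
    rw [h, h]
    constructor <;> ring
  obtain ⟨ν₁, ν₂, h1, h2, h3⟩ := Helper94.Lin.cryst (NN hA i z hz)
    (fun ν => (ν : Equiv.Perm ℂ) 1 - (ν : Equiv.Perm ℂ) 0) (fun ν => (ν : Equiv.Perm ℂ) 0)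
    (by
      intro ν
      obtain ⟨t, ht, h⟩ := ν.2
      show (ν : Equiv.Perm ℂ) 1 - (ν : Equiv.Perm ℂ) 0 ≠ 0
      rw [(hval ν t h).1]
      exact ((hA.holo _ t ht.1).2.2.2.2.2 z hz4).2)
    (by simp) (by simp)
    (by
      intro ν ν'
      obtain ⟨t, ht, h⟩ := ν.2
      show (ν : Equiv.Perm ℂ) ((ν' : Equiv.Perm ℂ) 1) - (ν : Equiv.Perm ℂ) ((ν' : Equiv.Perm ℂ) 0) =
        ((ν : Equiv.Perm ℂ) 1 - (ν : Equiv.Perm ℂ) 0) *
          ((ν' : Equiv.Perm ℂ) 1 - (ν' : Equiv.Perm ℂ) 0)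
      rw [(hval ν t h).1, h, h]
      ring)
    (by
      intro ν ν'
      obtain ⟨t, ht, h⟩ := ν.2
      show (ν : Equiv.Perm ℂ) ((ν' : Equiv.Perm ℂ) 0) =
        ((ν : Equiv.Perm ℂ) 1 - (ν : Equiv.Perm ℂ) 0) * (ν' : Equiv.Perm ℂ) 0 +
          (ν : Equiv.Perm ℂ) 0
      rw [(hval ν t h).1, (hval ν t h).2, h])
    hprop
    (by
      refine ⟨r, fun w => ?_⟩
      obtain ⟨t, ht, hle⟩ := hr w
      have hne : t.a z ≠ 0 := ((hA.holo _ t ht.1).2.2.2.2.2 z hz4).2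
      let f : Equiv.Perm ℂ :=
        { toFun := fun w => t.a z * w + t.β z
          invFun := fun w => (t.a z)⁻¹ * (w - t.β z)
          left_inv := fun w => by
            show (t.a z)⁻¹ * (t.a z * w + t.β z - t.β z) = w
            field_simp
            ring
          right_inv := fun w => by
            show t.a z * ((t.a z)⁻¹ * (w - t.β z)) + t.β z = w
            field_simp
            ring }
      have hf : ∀ w, f w = t.a z * w + t.β z := fun w => rfl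
      refine ⟨⟨f, t, ht, hf⟩, ?_⟩
      show ‖(f 1 - f 0) * w + f 0‖ ≤ r
      rw [hf, hf]
      have e : (t.a z * 1 + t.β z - (t.a z * 0 + t.β z)) * w + (t.a z * 0 + t.β z) =
          t.a z * w + t.β z := by ring
      rw [e]
      exact hle)
  obtain ⟨t₁, ht₁, hν₁⟩ := ν₁.2
  obtain ⟨t₂, ht₂, hν₂⟩ := ν₂.2
  refine ⟨t₁, t₂, ht₁.big, ht₂.big, ?_, ?_⟩
  · intro y hy
    refine ⟨ht₁.2 y hy, ht₂.2 y hy, ?_, ?_⟩
    · rw [ht₁.const_a hA hz4 y hy, ← (hval ν₁ t₁ hν₁).1]; exact h1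
    · rw [ht₂.const_a hA hz4 y hy, ← (hval ν₂ t₂ hν₂).1]; exact h2
  · have e1 := (hval ν₁ t₁ hν₁).2
    have e2 := (hval ν₂ t₂ hν₂).2
    rw [← e1, ← e2]
    exact h3

end Pool.Agent.Helper13.SP
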