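import Pool.Agent.Helper10.SP.GoalsT

/-! # LMID: the integral of the second elementary symmetric function of the Levi form -/

set_option autoImplicit false

open Complex Metric Set Filter Topology MeasureTheory
open scoped ContDiff ComplexConjugate ComplexOrder Manifold Matrix

namespace Pool.Agent.Helper13.SP

open Pool.Agent.Helper95.Lin Pool.Agent.Helper16.Abund Pool.Agent.Helper92.Orb
open Pool.Agent.Helper10.SP

universe u v

/-! ## Calculus of `cd` -/

theorem cd_mul {n : ℕ} {f g : Cn n → ℂ} {x : Cn n} (hf : DifferentiableAt ℝ f x)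
    (hg : DifferentiableAt ℝ g x) (l : Fin n) :
    cd l (fun y => f y * g y) x = f x * cd l g x + g x * cd l f x := by
  unfold cd
  rw [fderiv_fun_mul hf hg]
  simp only [add_apply, smul_apply, smul_eq_mul]
  ring

theorem cd_sub {n : ℕ} {f g : Cn n → ℂ} {x : Cn n} (hf : DifferentiableAt ℝ f x)
    (hg : DifferentiableAt ℝ g x) (l : Fin n) :
    cd l (fun y => f y - g y) x = cd l f x - cd l g x := by
  unfold cd
  rw [fderiv_fun_sub hf hg]
  simp only [sub_apply]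
  ring

theorem cd_sum {n : ℕ} {ι : Type*} (s : Finset ι) {f : ι → Cn n → ℂ} {x : Cn n}
    (hf : ∀ i ∈ s, DifferentiableAt ℝ (f i) x) (l : Fin n) :
    cd l (fun y => ∑ i ∈ s, f i y) x = ∑ i ∈ s, cd l (f i) x := by
  unfold cd
  rw [fderiv_fun_sum hf]
  simp only [sum_apply, Finset.mul_sum]
  rw [← Finset.sum_sub_distrib]

theorem cd_congr {n : ℕ} {f g : Cn n → ℂ} {x : Cn n} (h : f =ᶠ[𝓝 x] g) (l : Fin n) :
    cd l f x = cd l g x := by
  unfold cd
  rw [h.fderiv_eq]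

theorem cd_const {n : ℕ} (c : ℂ) (x : Cn n) (l : Fin n) : cd l (fun _ : Cn n => c) x = 0 := by
  unfold cd
  simp

/-! ## The derivative of the inverse metric -/

/-- `cd_k (H⁻¹)_{lm} = - ∑ K l q (cd_k H q p) K p m`. -/
theorem cd_inv {n : ℕ} {T : Set (Cn n)} (hT : IsOpen T) {H : Cn n → Matrix (Fin n) (Fin n) ℂ}
    (hH : ∀ i j, ContDiffOn ℝ ∞ (fun x => H x i j) T)
    (hK : ∀ j k, ContDiffOn ℝ ∞ (fun x => (H x)⁻¹ j k) T)
    (hu : ∀ x ∈ T, H x * (H x)⁻¹ = 1) {x : Cn n} (hx : x ∈ T) (k l m : Fin n) :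
    cd k (fun y => (H y)⁻¹ l m) x =
      - ∑ q, ∑ p, (H x)⁻¹ l q * cd k (fun y => H y q p) x * (H x)⁻¹ p m := by
  have hdH : ∀ i j, DifferentiableAt ℝ (fun x => H x i j) x := fun i j =>
    ((hH i j).contDiffAt (hT.mem_nhds hx)).differentiableAt (by simp)
  have hdK : ∀ i j, DifferentiableAt ℝ (fun x => (H x)⁻¹ i j) x := fun i j =>
    ((hK i j).contDiffAt (hT.mem_nhds hx)).differentiableAt (by simp)
  have hu' : ∀ y ∈ T, (H y)⁻¹ * H y = 1 := fun y hy => mul_eq_one_comm.1 (hu y hy)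
  have h1 : ∀ p, ∑ q, (cd k (fun y => (H y)⁻¹ l q) x * H x q p +
      (H x)⁻¹ l q * cd k (fun y => H y q p) x) = 0 := by
    intro p
    have h2 : cd k (fun y => ∑ q, (H y)⁻¹ l q * H y q p) x = 0 := by
      rw [cd_congr (g := fun _ => (1 : Matrix (Fin n) (Fin n) ℂ) l p), cd_const]
      filter_upwards [hT.mem_nhds hx] with y hy
      rw [← hu' y hy, Matrix.mul_apply]
    rw [cd_sum _ (fun q _ => (hdK l q).fun_mul (hdH q p))] at h2
    rw [← h2]
    refine Finset.sum_congr rfl fun q _ => ?_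
    rw [cd_mul (hdK l q) (hdH q p)]
    ring
  have h3 : ∀ q, cd k (fun y => (H y)⁻¹ l q) x = ∑ p, (∑ r, cd k (fun y => (H y)⁻¹ l r) x *
      H x r p) * (H x)⁻¹ p q := by
    intro q
    have h4 : ∀ r, ∑ p, H x r p * (H x)⁻¹ p q = if r = q then 1 else 0 := by
      intro r
      have := congrFun (congrFun (hu x hx) r) q
      rw [Matrix.mul_apply, Matrix.one_apply] at this
      exact this
    calc cd k (fun y => (H y)⁻¹ l q) x
        = ∑ r, cd k (fun y => (H y)⁻¹ l r) x * (if r = q then 1 else 0) := by simp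
      _ = ∑ r, cd k (fun y => (H y)⁻¹ l r) x * ∑ p, H x r p * (H x)⁻¹ p q := by
          simp only [h4]
      _ = ∑ r, ∑ p, cd k (fun y => (H y)⁻¹ l r) x * H x r p * (H x)⁻¹ p q := by
          refine Finset.sum_congr rfl fun r _ => ?_
          rw [Finset.mul_sum]
          refine Finset.sum_congr rfl fun p _ => ?_
          ring
      _ = _ := by
          rw [Finset.sum_comm]
          refine Finset.sum_congr rfl fun p _ => ?_
          rw [Finset.sum_mul]
  rw [h3 m]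
  have h5 : ∀ p, ∑ r, cd k (fun y => (H y)⁻¹ l r) x * H x r p =
      - ∑ q, (H x)⁻¹ l q * cd k (fun y => H y q p) x := by
    intro p
    have := h1 p
    rw [Finset.sum_add_distrib] at this
    linear_combination this
  simp only [h5]
  rw [Finset.sum_comm, ← Finset.sum_neg_distrib]
  refine Finset.sum_congr rfl fun p _ => ?_
  rw [neg_mul, Finset.sum_mul]

/-! ## Matrix naturality -/

/-- Entrywise conjugate. -/
noncomputable def cj {n : ℕ} (J : Matrix (Fin n) (Fin n) ℂ) : Matrix (Fin n) (Fin n) ℂ :=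
  J.map (starRingEnd ℂ)

/-- The complex Jacobian matrix. -/
noncomputable def Jm {n : ℕ} (τ : Cn n → Cn n) (x : Cn n) : Matrix (Fin n) (Fin n) ℂ :=
  Matrix.of fun p j => fderiv ℂ τ x (Pi.single j 1) p

theorem fderiv_eq_Jm {n : ℕ} (τ : Cn n → Cn n) (x v : Cn n) :
    fderiv ℂ τ x v = Jm τ x *ᵥ v := by
  have h1 : v = ∑ j, v j • (Pi.single j (1 : ℂ) : Cn n) := by
    ext i
    simp [Finset.sum_apply, Pi.single_apply]
  conv_lhs => rw [h1]
  rw [map_sum]
  ext p
  simp only [map_smul, Finset.sum_apply, Pi.smul_apply, smul_eq_mul, Matrix.mulVec, dotProduct,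
    Jm, Matrix.of_apply]
  refine Finset.sum_congr rfl fun j _ => ?_
  ring

/-- The vector `(∂̄_j u)`. -/
noncomputable def cu {n : ℕ} (u : Cn n → ℝ) (x : Cn n) : Cn n :=
  fun j => cdb j (fun y => (u y : ℂ)) x

/-- The gradient field. -/
noncomputable def vf {n : ℕ} (H : Cn n → Matrix (Fin n) (Fin n) ℂ) (u : Cn n → ℝ) (x : Cn n) :
    Cn n := ((H x)⁻¹)ᵀ *ᵥ cu u x

/-- The first field. -/
noncomputable def Y1 {n : ℕ} (H : Cn n → Matrix (Fin n) (Fin n) ℂ) (u : Cn n → ℝ) (x : Cn n) :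
    Cn n := ((H x).det.re : ℂ) • vf H u x

/-- The second field. -/
noncomputable def Y2 {n : ℕ} (H : Cn n → Matrix (Fin n) (Fin n) ℂ) (u : Cn n → ℝ) (x : Cn n) :
    Cn n := ((H x).det.re : ℂ) •
      (trL H u x • vf H u x - ((H x)⁻¹)ᵀ *ᵥ ((LM u x)ᵀ *ᵥ vf H u x))

theorem fderiv_ofReal {n : ℕ} {v : Cn n → ℝ} {x : Cn n} (hv : DifferentiableAt ℝ v x) (e : Cn n) :
    fderiv ℝ (fun y => (v y : ℂ)) x e = ((fderiv ℝ v x e : ℝ) : ℂ) := by
  have h : HasFDerivAt (fun y => (v y : ℂ)) (ofRealCLM.comp (fderiv ℝ v x)) x :=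
    ofRealCLM.hasFDerivAt.comp x hv.hasFDerivAt
  rw [h.fderiv]
  rfl

section nat

variable {n : ℕ} {T : Set (Cn n)} {G : Type u} [Group G] {R : G → Cn n → Cn n → Prop}
  {H : Cn n → Matrix (Fin n) (Fin n) ℂ} {u : Cn n → ℝ}

theorem nat_cdb (hE : Et T R) (hu : ContDiffOn ℝ ∞ u T) (hD : DInv R u) {U : Set (Cn n)}
    {τ : Cn n → Cn n} (ha : Arr R U τ) {x : Cn n} (hx : x ∈ U) (l : Fin n) :
    cdb l ((fun y => (u y : ℂ)) ∘ τ) x = cdb l (fun y => (u y : ℂ)) x := by
  obtain ⟨γ, hγ⟩ := ha.2.2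
  obtain ⟨hxT, hyT⟩ := hE.mem _ _ _ (hγ x hx)
  have hdu : DifferentiableAt ℝ u x :=
    (hu.contDiffAt (hE.isOpen.mem_nhds hxT)).differentiableAt (by simp)
  have hdu' : DifferentiableAt ℝ u (τ x) :=
    (hu.contDiffAt (hE.isOpen.mem_nhds hyT)).differentiableAt (by simp)
  have hτ : DifferentiableAt ℝ τ x :=
    ((ha.2.1 x hx).differentiableAt (ha.1.mem_nhds hx)).restrictScalars ℝ
  have hd2 : DifferentiableAt ℝ (fun y => u (τ y)) x := hdu'.comp x hτ
  have h1 := hD U τ ha x hx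
  have h2 : ((fun y => (u y : ℂ)) ∘ τ) = fun y => ((u (τ y) : ℝ) : ℂ) := rfl
  unfold cdb
  rw [h2, fderiv_ofReal hd2, fderiv_ofReal hd2, fderiv_ofReal hdu, fderiv_ofReal hdu, h1]

theorem contDiffOn_ofReal (hu : ContDiffOn ℝ ∞ u T) :
    ContDiffOn ℝ ∞ (fun y => (u y : ℂ)) T :=
  ofRealCLM.contDiff.comp_contDiffOn hu

theorem nat_cu (hW : S_WCH) (hE : Et T R) (hu : ContDiffOn ℝ ∞ u T) (hD : DInv R u)
    {U : Set (Cn n)} {τ : Cn n → Cn n} (ha : Arr R U τ) {x : Cn n} (hx : x ∈ U) :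
    cu u x = (cj (Jm τ x))ᵀ *ᵥ cu u (τ x) := by
  obtain ⟨γ, hγ⟩ := ha.2.2
  have hm : MapsTo τ U T := fun y hy => (hE.mem _ _ _ (hγ y hy)).2
  have h1 := (hW.1 T U hE.isOpen ha.1 τ ha.2.1 hm).1 (fun y => (u y : ℂ)) (contDiffOn_ofReal hu)
  ext l
  have h2 := (h1 l x hx).2
  rw [nat_cdb hE hu hD ha hx] at h2
  show cdb l (fun y => (u y : ℂ)) x = _
  rw [h2]
  simp [Matrix.mulVec, dotProduct, cj, Jm, cu, Matrix.transpose_apply]

theorem nat_LM (hW : S_WCH) (hE : Et T R) (hu : ContDiffOn ℝ ∞ u T) (hD : DInv R u)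
    {U : Set (Cn n)} {τ : Cn n → Cn n} (ha : Arr R U τ) {x : Cn n} (hx : x ∈ U) :
    LM u x = (Jm τ x)ᵀ * LM u (τ x) * cj (Jm τ x) := by
  obtain ⟨γ, hγ⟩ := ha.2.2
  have hm : MapsTo τ U T := fun y hy => (hE.mem _ _ _ (hγ y hy)).2
  have h1 := ((hW.1 T U hE.isOpen ha.1 τ ha.2.1 hm).2 u hu x hx).2
  have h2 : ∀ j k, LM (u ∘ τ) x j k = LM u x j k := by
    intro j k
    show cd j (cdb k (fun y => (((u ∘ τ) y : ℝ) : ℂ))) x = cd j (cdb k (fun y => (u y : ℂ))) x
    apply cd_congr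
    filter_upwards [ha.1.mem_nhds hx] with y hy
    exact nat_cdb hE hu hD ha hy k
  ext j k
  rw [← h2, h1, Matrix.mul_apply, Finset.sum_comm]
  refine Finset.sum_congr rfl fun q _ => ?_
  rw [Matrix.mul_apply, Finset.sum_mul]
  refine Finset.sum_congr rfl fun p _ => ?_
  simp only [Matrix.transpose_apply, cj, Jm, Matrix.of_apply, Matrix.map_apply]
  ring

theorem nat_K (hDETI : S_DETI.{u}) (hK : KEt T R H)
    {U : Set (Cn n)} {τ : Cn n → Cn n} (ha : Arr R U τ) {x : Cn n} (hx : x ∈ U) :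
    (H (τ x))⁻¹ = cj (Jm τ x) * (H x)⁻¹ * (Jm τ x)ᵀ := by
  have h1 := ((hDETI T R H hK).2.2.2.2.1 U τ ha x hx).2
  ext j k
  rw [h1, Matrix.mul_apply, Finset.sum_comm]
  refine Finset.sum_congr rfl fun q _ => ?_
  rw [Matrix.mul_apply, Finset.sum_mul]
  refine Finset.sum_congr rfl fun p _ => ?_
  simp only [Matrix.transpose_apply, cj, Jm, Matrix.of_apply, Matrix.map_apply]

theorem nat_vf (hW : S_WCH) (hDETI : S_DETI.{u}) (hK : KEt T R H) (hu : ContDiffOn ℝ ∞ u T)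
    (hD : DInv R u) {U : Set (Cn n)} {τ : Cn n → Cn n} (ha : Arr R U τ) {x : Cn n} (hx : x ∈ U) :
    vf H u (τ x) = Jm τ x *ᵥ vf H u x := by
  unfold vf
  rw [nat_K hDETI hK ha hx, nat_cu hW hK.et hu hD ha hx]
  rw [Matrix.transpose_mul, Matrix.transpose_mul, Matrix.transpose_transpose]
  simp only [Matrix.mulVec_mulVec, Matrix.mul_assoc]

theorem nat_tr (hW : S_WCH) (hDETI : S_DETI.{u}) (hK : KEt T R H) (hu : ContDiffOn ℝ ∞ u T)
    (hD : DInv R u) {U : Set (Cn n)} {τ : Cn n → Cn n} (ha : Arr R U τ) {x : Cn n} (hx : x ∈ U) :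
    trL H u (τ x) = trL H u x := by
  unfold trL
  rw [nat_K hDETI hK ha hx, nat_LM hW hK.et hu hD ha hx]
  rw [Matrix.mul_assoc (cj (Jm τ x)), Matrix.mul_assoc (cj (Jm τ x)), Matrix.trace_mul_comm]
  simp only [Matrix.mul_assoc]

theorem nat_W (hW : S_WCH) (hDETI : S_DETI.{u}) (hK : KEt T R H) (hu : ContDiffOn ℝ ∞ u T)
    (hD : DInv R u) {U : Set (Cn n)} {τ : Cn n → Cn n} (ha : Arr R U τ) {x : Cn n} (hx : x ∈ U) :
    ((H (τ x))⁻¹)ᵀ *ᵥ ((LM u (τ x))ᵀ *ᵥ vf H u (τ x)) =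
      Jm τ x *ᵥ (((H x)⁻¹)ᵀ *ᵥ ((LM u x)ᵀ *ᵥ vf H u x)) := by
  rw [nat_vf hW hDETI hK hu hD ha hx, nat_K hDETI hK ha hx, nat_LM hW hK.et hu hD ha hx]
  simp only [Matrix.transpose_mul, Matrix.transpose_transpose, Matrix.mulVec_mulVec,
    Matrix.mul_assoc]

end nat

/-! ## The divergences -/

theorem sum_antisymm {n : ℕ} (f : Fin n → Fin n → ℂ) (h : ∀ k m, f k m = - f m k) :
    ∑ k, ∑ m, f k m = 0 := by
  have h1 : ∑ k, ∑ m, f k m = - ∑ k, ∑ m, f k m := by
    conv_lhs => rw [Finset.sum_comm]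
    rw [← Finset.sum_neg_distrib]
    refine Finset.sum_congr rfl fun k _ => ?_
    rw [← Finset.sum_neg_distrib]
    exact Finset.sum_congr rfl fun m _ => h m k
  have h2 : (2 : ℂ) * ∑ k, ∑ m, f k m = 0 := by linear_combination h1
  simpa using h2

section div

variable {n : ℕ} {T : Set (Cn n)} {H : Cn n → Matrix (Fin n) (Fin n) ℂ} {u : Cn n → ℝ}

theorem div_Y1 (hT : IsOpen T) (hDs : ContDiffOn ℝ ∞ (fun x => (H x).det.re) T)
    (hKs : ∀ j k, ContDiffOn ℝ ∞ (fun x => (H x)⁻¹ j k) T)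
    (hdiv : ∀ x ∈ T, ∀ j, ∑ k, cd k (fun y => ((H y).det.re : ℂ) * (H y)⁻¹ j k) x = 0)
    (hcu : ∀ j, ContDiffOn ℝ ∞ (fun x => cu u x j) T) {x : Cn n} (hx : x ∈ T) :
    ∑ k, cd k (fun y => Y1 H u y k) x = ((H x).det.re : ℂ) * trL H u x := by
  have hdD : DifferentiableAt ℝ (fun y => ((H y).det.re : ℂ)) x :=
    ((contDiffOn_ofReal hDs).contDiffAt (hT.mem_nhds hx)).differentiableAt (by simp)
  have hdK : ∀ i j, DifferentiableAt ℝ (fun x => (H x)⁻¹ i j) x := fun i j =>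
    ((hKs i j).contDiffAt (hT.mem_nhds hx)).differentiableAt (by simp)
  have hdc : ∀ j, DifferentiableAt ℝ (fun x => cu u x j) x := fun j =>
    ((hcu j).contDiffAt (hT.mem_nhds hx)).differentiableAt (by simp)
  have hY : ∀ k, (fun y => Y1 H u y k) =
      fun y => ∑ j, (((H y).det.re : ℂ) * (H y)⁻¹ j k) * cu u y j := by
    intro k
    funext y
    simp only [Y1, vf, Pi.smul_apply, smul_eq_mul, Matrix.mulVec, dotProduct,
      Matrix.transpose_apply, Finset.mul_sum]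
    exact Finset.sum_congr rfl fun j _ => by ring
  have h1 : ∀ k, cd k (fun y => Y1 H u y k) x =
      ∑ j, ((((H x).det.re : ℂ) * (H x)⁻¹ j k) * LM u x k j +
        cu u x j * cd k (fun y => ((H y).det.re : ℂ) * (H y)⁻¹ j k) x) := by
    intro k
    rw [hY, cd_sum _ (fun j _ => (hdD.fun_mul (hdK j k)).fun_mul (hdc j))]
    refine Finset.sum_congr rfl fun j _ => ?_
    rw [cd_mul (hdD.fun_mul (hdK j k)) (hdc j)]
    rfl
  simp only [h1]
  rw [Finset.sum_comm]
  have h2 : ∀ j, ∑ k, ((((H x).det.re : ℂ) * (H x)⁻¹ j k) * LM u x k j +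
        cu u x j * cd k (fun y => ((H y).det.re : ℂ) * (H y)⁻¹ j k) x) =
      ((H x).det.re : ℂ) * ((H x)⁻¹ * LM u x) j j := by
    intro j
    rw [Finset.sum_add_distrib, ← Finset.mul_sum, hdiv x hx j, mul_zero, add_zero,
      Matrix.mul_apply, Finset.mul_sum]
    exact Finset.sum_congr rfl fun k _ => by ring
  simp only [h2]
  rw [← Finset.mul_sum]
  rfl

/-- The coefficients of the second field. -/
noncomputable def PP (H : Cn n → Matrix (Fin n) (Fin n) ℂ) (j k l m : Fin n) (y : Cn n) : ℂ :=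
  (((H y).det.re : ℂ) * (H y)⁻¹ j k) * (H y)⁻¹ l m -
    (((H y).det.re : ℂ) * (H y)⁻¹ l k) * (H y)⁻¹ j m

theorem Y2_eq (y : Cn n) (k : Fin n) :
    Y2 H u y k = ∑ j, ∑ l, ∑ m, PP H j k l m y * (cu u y j * LM u y m l) := by
  set D : ℂ := ((H y).det.re : ℂ) with hD
  set K := (H y)⁻¹ with hK
  set L := LM u y with hL
  set c := cu u y with hc
  have e1 : ∑ j, ∑ l, ∑ m, (D * K j k) * K l m * (c j * L m l) =
      D * ((∑ l, ∑ m, K l m * L m l) * ∑ j, K j k * c j) := by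
    rw [Finset.mul_sum, Finset.mul_sum]
    refine Finset.sum_congr rfl fun j _ => ?_
    rw [Finset.sum_mul, Finset.mul_sum]
    refine Finset.sum_congr rfl fun l _ => ?_
    rw [Finset.sum_mul, Finset.mul_sum]
    refine Finset.sum_congr rfl fun m _ => ?_
    ring
  have e2 : ∑ j, ∑ l, ∑ m, (D * K l k) * K j m * (c j * L m l) =
      D * ∑ l, K l k * ∑ m, L m l * ∑ j, K j m * c j := by
    rw [Finset.sum_comm, Finset.mul_sum]
    refine Finset.sum_congr rfl fun l _ => ?_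
    rw [Finset.sum_comm, Finset.mul_sum, Finset.mul_sum]
    refine Finset.sum_congr rfl fun m _ => ?_
    rw [Finset.mul_sum, Finset.mul_sum, Finset.mul_sum]
    refine Finset.sum_congr rfl fun j _ => ?_
    ring
  have e3 : ∑ j, ∑ l, ∑ m, PP H j k l m y * (c j * L m l) =
      ∑ j, ∑ l, ∑ m, (D * K j k) * K l m * (c j * L m l) -
      ∑ j, ∑ l, ∑ m, (D * K l k) * K j m * (c j * L m l) := by
    simp only [← Finset.sum_sub_distrib]
    refine Finset.sum_congr rfl fun j _ => Finset.sum_congr rfl fun l _ =>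
      Finset.sum_congr rfl fun m _ => ?_
    unfold PP
    rw [← hD, ← hK]
    ring
  rw [e3, e1, e2]
  have e4 : trL H u y = ∑ l, ∑ m, K l m * L m l := by
    unfold trL
    rw [← hK, ← hL, Matrix.trace]
    refine Finset.sum_congr rfl fun l _ => ?_
    rw [Matrix.diag_apply, Matrix.mul_apply]
  unfold Y2 vf
  rw [e4]
  simp only [Pi.smul_apply, Pi.sub_apply, smul_eq_mul, Matrix.mulVec, dotProduct,
    Matrix.transpose_apply]
  rw [← hD, ← hK, ← hL, ← hc]
  ring

theorem div_PP (hT : IsOpen T) (hH : ∀ i j, ContDiffOn ℝ ∞ (fun x => H x i j) T)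
    (hDs : ContDiffOn ℝ ∞ (fun x => (H x).det.re) T)
    (hKs : ∀ j k, ContDiffOn ℝ ∞ (fun x => (H x)⁻¹ j k) T)
    (hinv : ∀ x ∈ T, H x * (H x)⁻¹ = 1)
    (hcl : ∀ x ∈ T, ∀ i j l, cd l (fun y => H y i j) x = cd i (fun y => H y l j) x)
    (hdiv : ∀ x ∈ T, ∀ j, ∑ k, cd k (fun y => ((H y).det.re : ℂ) * (H y)⁻¹ j k) x = 0)
    {x : Cn n} (hx : x ∈ T) (j l m : Fin n) : ∑ k, cd k (PP H j k l m) x = 0 := by
  have hdD : DifferentiableAt ℝ (fun y => ((H y).det.re : ℂ)) x :=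
    ((contDiffOn_ofReal hDs).contDiffAt (hT.mem_nhds hx)).differentiableAt (by simp)
  have hdK : ∀ i j, DifferentiableAt ℝ (fun x => (H x)⁻¹ i j) x := fun i j =>
    ((hKs i j).contDiffAt (hT.mem_nhds hx)).differentiableAt (by simp)
  set D : ℂ := ((H x).det.re : ℂ) with hD
  set K := (H x)⁻¹ with hK
  have h1 : ∀ k, cd k (PP H j k l m) x =
      (D * (K j k * cd k (fun y => (H y)⁻¹ l m) x) - D * (K l k * cd k (fun y => (H y)⁻¹ j m) x)) +
      K l m * cd k (fun y => ((H y).det.re : ℂ) * (H y)⁻¹ j k) x -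
      K j m * cd k (fun y => ((H y).det.re : ℂ) * (H y)⁻¹ l k) x := by
    intro k
    show cd k (fun y => (((H y).det.re : ℂ) * (H y)⁻¹ j k) * (H y)⁻¹ l m -
      (((H y).det.re : ℂ) * (H y)⁻¹ l k) * (H y)⁻¹ j m) x = _
    rw [cd_sub ((hdD.fun_mul (hdK j k)).fun_mul (hdK l m)) ((hdD.fun_mul (hdK l k)).fun_mul (hdK j m)),
      cd_mul (hdD.fun_mul (hdK j k)) (hdK l m), cd_mul (hdD.fun_mul (hdK l k)) (hdK j m)]
    ring
  simp only [h1]
  rw [Finset.sum_sub_distrib, Finset.sum_add_distrib, ← Finset.mul_sum, ← Finset.mul_sum,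
    hdiv x hx j, hdiv x hx l, mul_zero, mul_zero, add_zero, sub_zero]
  have h2 : ∀ a b, ∑ k, D * (K a k * cd k (fun y => (H y)⁻¹ b m) x) =
      - (D * ∑ k, ∑ q, K a k * K b q * ∑ p, cd k (fun y => H y q p) x * K p m) := by
    intro a b
    rw [← Finset.mul_sum, ← mul_neg, ← Finset.sum_neg_distrib]
    congr 1
    refine Finset.sum_congr rfl fun k _ => ?_
    rw [cd_inv hT hH hKs hinv hx k b m, ← hK, mul_neg, Finset.mul_sum]
    congr 1
    refine Finset.sum_congr rfl fun q _ => ?_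
    rw [Finset.mul_sum, Finset.mul_sum]
    refine Finset.sum_congr rfl fun p _ => ?_
    ring
  rw [Finset.sum_sub_distrib, h2 j l, h2 l j]
  have h3 : ∑ k, ∑ q, K j k * K l q * ∑ p, cd k (fun y => H y q p) x * K p m =
      ∑ k, ∑ q, K l k * K j q * ∑ p, cd k (fun y => H y q p) x * K p m := by
    rw [Finset.sum_comm]
    refine Finset.sum_congr rfl fun q _ => Finset.sum_congr rfl fun k _ => ?_
    have h4 : ∑ p, cd k (fun y => H y q p) x * K p m = ∑ p, cd q (fun y => H y k p) x * K p m :=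
      Finset.sum_congr rfl fun p _ => by rw [hcl x hx q p k]
    rw [h4]
    ring
  rw [h3]
  ring

theorem div_Y2 (hT : IsOpen T) (hH : ∀ i j, ContDiffOn ℝ ∞ (fun x => H x i j) T)
    (hDs : ContDiffOn ℝ ∞ (fun x => (H x).det.re) T)
    (hKs : ∀ j k, ContDiffOn ℝ ∞ (fun x => (H x)⁻¹ j k) T)
    (hinv : ∀ x ∈ T, H x * (H x)⁻¹ = 1)
    (hcl : ∀ x ∈ T, ∀ i j l, cd l (fun y => H y i j) x = cd i (fun y => H y l j) x)
    (hdiv : ∀ x ∈ T, ∀ j, ∑ k, cd k (fun y => ((H y).det.re : ℂ) * (H y)⁻¹ j k) x = 0)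
    (hcu : ∀ j, ContDiffOn ℝ ∞ (fun x => cu u x j) T)
    (hLs : ∀ j k, ContDiffOn ℝ ∞ (fun x => LM u x j k) T)
    (hLc : ∀ x ∈ T, ∀ j k l, cd l (fun y => LM u y j k) x = cd j (fun y => LM u y l k) x)
    {x : Cn n} (hx : x ∈ T) :
    ∑ k, cd k (fun y => Y2 H u y k) x = ((H x).det.re : ℂ) *
      (trL H u x ^ 2 - Matrix.trace ((H x)⁻¹ * LM u x * ((H x)⁻¹ * LM u x))) := by
  have hdD : DifferentiableAt ℝ (fun y => ((H y).det.re : ℂ)) x :=
    ((contDiffOn_ofReal hDs).contDiffAt (hT.mem_nhds hx)).differentiableAt (by simp)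
  have hdK : ∀ i j, DifferentiableAt ℝ (fun x => (H x)⁻¹ i j) x := fun i j =>
    ((hKs i j).contDiffAt (hT.mem_nhds hx)).differentiableAt (by simp)
  have hdc : ∀ j, DifferentiableAt ℝ (fun x => cu u x j) x := fun j =>
    ((hcu j).contDiffAt (hT.mem_nhds hx)).differentiableAt (by simp)
  have hdL : ∀ i j, DifferentiableAt ℝ (fun x => LM u x i j) x := fun i j =>
    ((hLs i j).contDiffAt (hT.mem_nhds hx)).differentiableAt (by simp)
  have hdP : ∀ j k l m, DifferentiableAt ℝ (PP H j k l m) x := fun j k l m =>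
    ((hdD.mul (hdK j k)).mul (hdK l m)).sub ((hdD.mul (hdK l k)).mul (hdK j m))
  set D : ℂ := ((H x).det.re : ℂ) with hD
  set K := (H x)⁻¹ with hK
  set L := LM u x with hL
  have h1 : ∀ k, cd k (fun y => Y2 H u y k) x =
      ∑ j, ∑ l, ∑ m, (PP H j k l m x * (L m l * L k j) +
        cu u x j * (PP H j k l m x * cd k (fun y => LM u y m l) x) +
        (cu u x j * L m l) * cd k (PP H j k l m) x) := by
    intro k
    have e : (fun y => Y2 H u y k) =
        fun y => ∑ j, ∑ l, ∑ m, PP H j k l m y * (cu u y j * LM u y m l) := by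
      funext y; exact Y2_eq y k
    rw [e, cd_sum _ (fun j _ => DifferentiableAt.fun_sum fun l _ => DifferentiableAt.fun_sum
      fun m _ => (hdP j k l m).fun_mul ((hdc j).fun_mul (hdL m l)))]
    refine Finset.sum_congr rfl fun j _ => ?_
    rw [cd_sum _ (fun l _ => DifferentiableAt.fun_sum
      fun m _ => (hdP j k l m).fun_mul ((hdc j).fun_mul (hdL m l)))]
    refine Finset.sum_congr rfl fun l _ => ?_
    rw [cd_sum _ (fun m _ => (hdP j k l m).fun_mul ((hdc j).fun_mul (hdL m l)))]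
    refine Finset.sum_congr rfl fun m _ => ?_
    rw [cd_mul (hdP j k l m) ((hdc j).fun_mul (hdL m l)), cd_mul (hdc j) (hdL m l)]
    have e2 : cd k (fun y => cu u y j) x = L k j := rfl
    rw [e2]
    ring
  simp only [h1]
  rw [Finset.sum_comm]
  have h2 : ∀ j, ∑ k, ∑ l, ∑ m, (PP H j k l m x * (L m l * L k j) +
        cu u x j * (PP H j k l m x * cd k (fun y => LM u y m l) x) +
        (cu u x j * L m l) * cd k (PP H j k l m) x) =
      ∑ l, D * ((K * L) j j * (K * L) l l - (K * L) l j * (K * L) j l) := by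
    intro j
    rw [Finset.sum_comm]
    refine Finset.sum_congr rfl fun l _ => ?_
    simp only [Finset.sum_add_distrib]
    have a1 : ∑ k, ∑ m, (cu u x j * L m l) * cd k (PP H j k l m) x = 0 := by
      rw [Finset.sum_comm]
      apply Finset.sum_eq_zero
      intro m _
      rw [← Finset.mul_sum, div_PP hT hH hDs hKs hinv hcl hdiv hx j l m, mul_zero]
    have a2 : ∑ k, ∑ m, cu u x j * (PP H j k l m x * cd k (fun y => LM u y m l) x) = 0 := by
      apply sum_antisymm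
      intro k m
      rw [hLc x hx m l k]
      unfold PP
      ring
    have a3 : ∑ k, ∑ m, PP H j k l m x * (L m l * L k j) =
        D * ((K * L) j j * (K * L) l l - (K * L) l j * (K * L) j l) := by
      simp only [Matrix.mul_apply]
      have b1 : (∑ k, K j k * L k j) * (∑ m, K l m * L m l) =
          ∑ k, ∑ m, K j k * L k j * (K l m * L m l) := by
        rw [Finset.sum_mul]
        exact Finset.sum_congr rfl fun k _ => by rw [Finset.mul_sum]
      have b2 : (∑ k, K l k * L k j) * (∑ m, K j m * L m l) =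
          ∑ k, ∑ m, K l k * L k j * (K j m * L m l) := by
        rw [Finset.sum_mul]
        exact Finset.sum_congr rfl fun k _ => by rw [Finset.mul_sum]
      rw [b1, b2, ← Finset.sum_sub_distrib, Finset.mul_sum]
      refine Finset.sum_congr rfl fun k _ => ?_
      rw [← Finset.sum_sub_distrib, Finset.mul_sum]
      refine Finset.sum_congr rfl fun m _ => ?_
      unfold PP
      rw [← hD, ← hK]
      ring
    rw [a1, a2, a3]
    ring
  simp only [h2]
  have h3 : trL H u x = ∑ j, (K * L) j j := rfl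
  have h4 : Matrix.trace (K * L * (K * L)) = ∑ j, ∑ l, (K * L) j l * (K * L) l j := by
    rw [Matrix.trace]
    exact Finset.sum_congr rfl fun j _ => by rw [Matrix.diag_apply, Matrix.mul_apply]
  rw [h3, h4, sq, Finset.sum_mul, mul_sub, Finset.mul_sum, Finset.mul_sum,
    ← Finset.sum_sub_distrib]
  refine Finset.sum_congr rfl fun j _ => ?_
  rw [Finset.mul_sum, Finset.mul_sum, Finset.mul_sum, ← Finset.sum_sub_distrib]
  refine Finset.sum_congr rfl fun l _ => ?_
  ring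

end div

/-! ## Assembly -/

theorem integrableOn_mul {n : ℕ} {T : Set (Cn n)} (hT : IsOpen T) {κ : Cn n → ℝ}
    (hκ : TestF T κ) {g : Cn n → ℝ} (hg : ContinuousOn g T) :
    IntegrableOn (fun x => κ x * g x) T := by
  have h1 : IntegrableOn (fun x => κ x * g x) (tsupport κ) :=
    (hκ.1.continuous.continuousOn.mul (hg.mono hκ.2.2)).integrableOn_compact hκ.2.1
  refine h1.of_forall_sdiff_eq_zero hT.measurableSet ?_
  rintro x ⟨-, hx⟩
  rw [image_eq_zero_of_notMem_tsupport hx, zero_mul]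

theorem trace_im_zero {n : ℕ} {A : Matrix (Fin n) (Fin n) ℂ}
    (h : star (Matrix.trace A) = Matrix.trace A) : (Matrix.trace A).im = 0 :=
  Complex.conj_eq_iff_im.1 h

theorem lmid (hWIRT : S_WIRT) (hWCH : S_WCH) (hLMF : S_LMF) (hARRB : S_ARRB.{u})
    (hDETI : S_DETI.{u}) (hDIVC : S_DIVC.{u}) : S_LMID.{u} := by
  intro n T G _ R H hK κ hκ u hu hD
  have hE := hK.et
  have hT := hE.isOpen
  obtain ⟨d1, d2, d3, d4, d5, d6⟩ := hDETI T R H hK
  obtain ⟨l1, l2, l3, l4⟩ := hLMF T hT u hu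
  have hcu : ∀ j, ContDiffOn ℝ ∞ (fun x => cu u x j) T := fun j =>
    ((hWIRT T hT _ _ (contDiffOn_ofReal hu) (contDiffOn_ofReal hu)).1 j).2
  have hinv : ∀ x ∈ T, H x * (H x)⁻¹ = 1 := fun x hx => (d1 x hx).2.2.2
  have htr : ContDiffOn ℝ ∞ (trL H u) T := by
    have e : trL H u = fun x => ∑ l, ∑ m, (H x)⁻¹ l m * LM u x m l := by
      funext x
      unfold trL
      rw [Matrix.trace]
      exact Finset.sum_congr rfl fun l _ => by rw [Matrix.diag_apply, Matrix.mul_apply]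
    rw [e]
    exact ContDiffOn.sum fun l _ => ContDiffOn.sum fun m _ => (d3 l m).mul (l1 m l)
  have htr4 : ContDiffOn ℝ ∞
      (fun x => Matrix.trace ((H x)⁻¹ * LM u x * ((H x)⁻¹ * LM u x))) T := by
    have e : (fun x => Matrix.trace ((H x)⁻¹ * LM u x * ((H x)⁻¹ * LM u x))) =
        fun x => ∑ l, ∑ m, (∑ p, (H x)⁻¹ l p * LM u x p m) * (∑ p, (H x)⁻¹ m p * LM u x p l) := by
      funext x
      rw [Matrix.trace]
      exact Finset.sum_congr rfl fun l _ => by
        rw [Matrix.diag_apply, Matrix.mul_apply]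
        exact Finset.sum_congr rfl fun m _ => by rw [Matrix.mul_apply, Matrix.mul_apply]
    rw [e]
    exact ContDiffOn.sum fun l _ => ContDiffOn.sum fun m _ =>
      (ContDiffOn.sum fun p _ => (d3 l p).mul (l1 p m)).mul
        (ContDiffOn.sum fun p _ => (d3 m p).mul (l1 p l))
  -- realness
  have him : ∀ x ∈ T, (trL H u x).im = 0 := by
    intro x hx
    apply trace_im_zero
    rw [← Matrix.trace_conjTranspose, Matrix.conjTranspose_mul, (l2 x hx).eq,
      (d1 x hx).2.2.1.isHermitian.eq, Matrix.trace_mul_comm]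
  have him4 : ∀ x ∈ T,
      (Matrix.trace ((H x)⁻¹ * LM u x * ((H x)⁻¹ * LM u x))).im = 0 := by
    intro x hx
    apply trace_im_zero
    rw [← Matrix.trace_conjTranspose]
    simp only [Matrix.conjTranspose_mul]
    rw [(l2 x hx).eq, (d1 x hx).2.2.1.isHermitian.eq]
    have e : LM u x * (H x)⁻¹ * (LM u x * (H x)⁻¹) =
        LM u x * ((H x)⁻¹ * LM u x * (H x)⁻¹) := by simp only [Matrix.mul_assoc]
    rw [e, Matrix.trace_mul_comm]
    simp only [Matrix.mul_assoc]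
  -- naturality
  have hfd : ∀ (τ : Cn n → Cn n) (x v : Cn n), fderiv ℂ τ x v = Jm τ x *ᵥ v := fderiv_eq_Jm
  have hN1 : ∀ U τ, Arr R U τ → ∀ x ∈ U, fderiv ℂ τ x (Y1 H u x) =
      ((‖(fderiv ℂ τ x).det‖ ^ 2 : ℝ) : ℂ) • Y1 H u (τ x) := by
    intro U τ ha x hx
    rw [hfd]
    unfold Y1
    rw [nat_vf hWCH hDETI hK hu hD ha hx, Matrix.mulVec_smul, smul_smul, (d5 U τ ha x hx).1]
    congr 1
    push_cast
    ring
  have hN2 : ∀ U τ, Arr R U τ → ∀ x ∈ U, fderiv ℂ τ x (Y2 H u x) =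
      ((‖(fderiv ℂ τ x).det‖ ^ 2 : ℝ) : ℂ) • Y2 H u (τ x) := by
    intro U τ ha x hx
    rw [hfd]
    unfold Y2
    rw [nat_W hWCH hDETI hK hu hD ha hx, nat_vf hWCH hDETI hK hu hD ha hx,
      nat_tr hWCH hDETI hK hu hD ha hx, Matrix.mulVec_smul, Matrix.mulVec_sub,
      Matrix.mulVec_smul, smul_smul, (d5 U τ ha x hx).1]
    congr 1
    push_cast
    ring
  -- smoothness of the fields
  have hDc : ContDiffOn ℝ ∞ (fun x => ((H x).det.re : ℂ)) T := contDiffOn_ofReal d2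
  have hS1 : ContDiffOn ℝ ∞ (Y1 H u) T := by
    rw [contDiffOn_pi]
    intro k
    have e : (fun x => Y1 H u x k) = fun x => ((H x).det.re : ℂ) * ∑ j, (H x)⁻¹ j k * cu u x j := by
      funext y
      simp only [Y1, vf, Pi.smul_apply, smul_eq_mul, Matrix.mulVec, dotProduct,
        Matrix.transpose_apply]
    rw [e]
    exact hDc.mul (ContDiffOn.sum fun j _ => (d3 j k).mul (hcu j))
  have hS2 : ContDiffOn ℝ ∞ (Y2 H u) T := by
    rw [contDiffOn_pi]
    intro k
    have e : (fun x => Y2 H u x k) =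
        fun y => ∑ j, ∑ l, ∑ m, PP H j k l m y * (cu u y j * LM u y m l) := by
      funext y; exact Y2_eq y k
    rw [e]
    exact ContDiffOn.sum fun j _ => ContDiffOn.sum fun l _ => ContDiffOn.sum fun m _ =>
      (((hDc.mul (d3 j k)).mul (d3 l m)).sub ((hDc.mul (d3 l k)).mul (d3 j m))).mul
        ((hcu j).mul (l1 m l))
  have hLc : ∀ x ∈ T, ∀ j k l, cd l (fun y => LM u y j k) x = cd j (fun y => LM u y l k) x :=
    fun x hx j k l => (l4 x hx j k l).1
  have hI1 := hDIVC T R H hK κ hκ (Y1 H u) hS1 hN1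
  have hI2 := hDIVC T R H hK κ hκ (Y2 H u) hS2 hN2
  refine ⟨him, ⟨reCLM.contDiff.comp_contDiffOn htr, ?_⟩, ?_, ?_⟩
  · intro γ x y hxy
    obtain ⟨U, τ, σ, hxU, hUT, hL, hτ, -⟩ := (hARRB T R hE).1 γ x y hxy
    have ha : Arr R U τ := ⟨hL.1, hL.2.1, γ, hL.2.2⟩
    have := nat_tr hWCH hDETI hK hu hD ha hxU
    rw [hτ] at this
    simp only [this]
  · have e : ∀ x ∈ T, (κ x : ℂ) * ∑ k, cd k (fun y => Y1 H u y k) x =
        ((κ x * (H x).det.re * (trL H u x).re : ℝ) : ℂ) := by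
      intro x hx
      rw [div_Y1 hT d2 d3 d6 hcu hx]
      have h1 : trL H u x = ((trL H u x).re : ℂ) := by
        apply Complex.ext
        · simp
        · simp [him x hx]
      conv_lhs => rw [h1]
      push_cast
      ring
    rw [setIntegral_congr_fun hT.measurableSet e, integral_complex_ofReal] at hI1
    exact_mod_cast hI1
  · have e : ∀ x ∈ T, (κ x : ℂ) * ∑ k, cd k (fun y => Y2 H u y k) x =
        ((κ x * ((H x).det.re * (trL H u x).re ^ 2) - κ x * ((H x).det.re *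
          (Matrix.trace ((H x)⁻¹ * LM u x * ((H x)⁻¹ * LM u x))).re) : ℝ) : ℂ) := by
      intro x hx
      rw [div_Y2 hT hK.smooth d2 d3 hinv hK.closed d6 hcu l1 hLc hx]
      have h1 : trL H u x = ((trL H u x).re : ℂ) := by
        apply Complex.ext
        · simp
        · simp [him x hx]
      have h2 : Matrix.trace ((H x)⁻¹ * LM u x * ((H x)⁻¹ * LM u x)) =
          ((Matrix.trace ((H x)⁻¹ * LM u x * ((H x)⁻¹ * LM u x))).re : ℂ) := by
        apply Complex.ext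
        · simp
        · simp [him4 x hx]
      conv_lhs => rw [h1, h2]
      push_cast
      ring
    rw [setIntegral_congr_fun hT.measurableSet e, integral_complex_ofReal] at hI2
    have hI3 : ∫ x in T, (κ x * ((H x).det.re * (trL H u x).re ^ 2) - κ x * ((H x).det.re *
          (Matrix.trace ((H x)⁻¹ * LM u x * ((H x)⁻¹ * LM u x))).re)) = 0 := by
      exact_mod_cast hI2
    have c1 : ContinuousOn (fun x => (H x).det.re * (trL H u x).re ^ 2) T :=
      d2.continuousOn.mul ((continuous_re.comp_continuousOn htr.continuousOn).pow 2)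
    have c2 : ContinuousOn (fun x => (H x).det.re *
        (Matrix.trace ((H x)⁻¹ * LM u x * ((H x)⁻¹ * LM u x))).re) T :=
      d2.continuousOn.mul (continuous_re.comp_continuousOn htr4.continuousOn)
    rw [integral_sub (integrableOn_mul hT hκ.test c1) (integrableOn_mul hT hκ.test c2)] at hI3
    simp only [mul_assoc]
    simp only [mul_assoc] at hI3
    linarith

end Pool.Agent.Helper13.SP
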