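import Pool.Agent.Helper82.SP.B4
import Pool.Agent.Helper82.SP.B9
import Pool.Agent.Helper82.SP.NF

/-!
# Project SP (MP_db6300_gt), packet B8: the three products.
-/

set_option autoImplicit false

namespace Pool.Agent.Helper13.SP

open Matrix Real
open Pool.Agent.Helper26.LU (V M3 SO3 nrm sph proj Bm Rot crossM)
open Pool.Agent.Helper82.SP

lemma coord_an (i : Fin 4) (j : Fin 3) (z : Fin 4 → V) :
    AnalyticAt ℝ (fun z : Fin 4 → V => z i j) z :=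
  ((ContinuousLinearMap.proj (R := ℝ) (φ := fun _ : Fin 3 => ℝ) j).comp
    (ContinuousLinearMap.proj (R := ℝ) (φ := fun _ : Fin 4 => V) i)).analyticAt z

lemma D4_an {p q r s : (Fin 4 → V) → Fin 4 → ℝ} {z : Fin 4 → V}
    (hp : ∀ i, AnalyticAt ℝ (fun z => p z i) z) (hq : ∀ i, AnalyticAt ℝ (fun z => q z i) z)
    (hr : ∀ i, AnalyticAt ℝ (fun z => r z i) z) (hs : ∀ i, AnalyticAt ℝ (fun z => s z i) z) :
    AnalyticAt ℝ (fun z => D4 (p z) (q z) (r z) (s z)) z := by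
  have h0 : (fun z => D4 (p z) (q z) (r z) (s z)) = fun z =>
      p z 0 * (q z 1 * (r z 2 * s z 3 - r z 3 * s z 2) - q z 2 * (r z 1 * s z 3 - r z 3 * s z 1)
      + q z 3 * (r z 1 * s z 2 - r z 2 * s z 1))
    - p z 1 * (q z 0 * (r z 2 * s z 3 - r z 3 * s z 2) - q z 2 * (r z 0 * s z 3 - r z 3 * s z 0)
      + q z 3 * (r z 0 * s z 2 - r z 2 * s z 0))
    + p z 2 * (q z 0 * (r z 1 * s z 3 - r z 3 * s z 1) - q z 1 * (r z 0 * s z 3 - r z 3 * s z 0)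
      + q z 3 * (r z 0 * s z 1 - r z 1 * s z 0))
    - p z 3 * (q z 0 * (r z 1 * s z 2 - r z 2 * s z 1) - q z 1 * (r z 0 * s z 2 - r z 2 * s z 0)
      + q z 2 * (r z 0 * s z 1 - r z 1 * s z 0)) := by
    funext z
    exact D4_expand _ _ _ _
  rw [h0]
  have hrs : ∀ i j : Fin 4, AnalyticAt ℝ (fun z => r z i * s z j - r z j * s z i) z := fun i j =>
    ((hr i).fun_mul (hs j)).fun_sub ((hr j).fun_mul (hs i))
  have hqrs : ∀ a b c d e f g h i : Fin 4, AnalyticAt ℝ (fun z => q z a * (r z b * s z c - r z c * s z b)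
      - q z d * (r z e * s z f - r z f * s z e) + q z g * (r z h * s z i - r z i * s z h)) z :=
    fun a b c d e f g h i => (((hq a).fun_mul (hrs b c)).fun_sub ((hq d).fun_mul (hrs e f))).fun_add
      ((hq g).fun_mul (hrs h i))
  exact ((((hp 0).fun_mul (hqrs 1 2 3 2 1 3 3 1 2)).fun_sub
    ((hp 1).fun_mul (hqrs 0 2 3 2 0 3 3 0 2))).fun_add
    ((hp 2).fun_mul (hqrs 0 1 3 1 0 3 3 0 1))).fun_sub
    ((hp 3).fun_mul (hqrs 0 1 2 1 0 2 2 0 1))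

lemma dI_an (κ : Fin 4 → ℝ) (b : Fin 4 → V) (g : Fin 4 → ℝ) :
    AnalyticOnNhd ℝ (fun z => dI κ b g z) Set.univ := by
  intro z _
  have hκ : ∀ i, AnalyticAt ℝ (fun _ : Fin 4 → V => κ i) z := fun i => analyticAt_const
  have hX : ∀ (j : Fin 3) (i : Fin 4), AnalyticAt ℝ (fun z => cX κ b z j i) z := fun j i =>
    analyticAt_const.fun_mul (((hκ i).fun_mul (coord_an i j z)).fun_sub analyticAt_const)
  have hH : ∀ i : Fin 4, AnalyticAt ℝ (fun z => cH κ b g z i) z := by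
    intro i
    have h1 : ∀ c : V, AnalyticAt ℝ (fun z : Fin 4 → V => c ⬝ᵥ z i) z := by
      intro c
      have h2 : (fun z : Fin 4 → V => c ⬝ᵥ z i) = fun z => c 0 * z i 0 + c 1 * z i 1 + c 2 * z i 2 := by
        funext z
        simp only [dotProduct, Fin.sum_univ_three]
      rw [h2]
      exact ((analyticAt_const.fun_mul (coord_an i 0 z)).fun_add
        (analyticAt_const.fun_mul (coord_an i 1 z))).fun_add
        (analyticAt_const.fun_mul (coord_an i 2 z))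
    have h3 : AnalyticAt ℝ (fun z : Fin 4 → V => z i ⬝ᵥ z i) z := by
      have h2 : (fun z : Fin 4 → V => z i ⬝ᵥ z i) = fun z => z i 0 * z i 0 + z i 1 * z i 1 + z i 2 * z i 2 := by
        funext z
        simp only [dotProduct, Fin.sum_univ_three]
      rw [h2]
      exact (((coord_an i 0 z).fun_mul (coord_an i 0 z)).fun_add
        ((coord_an i 1 z).fun_mul (coord_an i 1 z))).fun_add
        ((coord_an i 2 z).fun_mul (coord_an i 2 z))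
    exact ((analyticAt_const.fun_mul (h1 (b i))).fun_sub analyticAt_const).fun_sub ((hκ i).fun_mul h3)
  exact ((((D4_an hH (hX 0) (hX 1) (hX 2)).fun_mul (D4_an hκ (hX 0) (hX 1) (hX 2))).fun_sub
    ((D4_an hκ hH (hX 1) (hX 2)).fun_pow 2)).fun_sub
    ((D4_an hκ (hX 0) hH (hX 2)).fun_pow 2)).fun_sub
    ((D4_an hκ (hX 0) (hX 1) hH).fun_pow 2)

lemma Qd_rot {A : M3} (hA : A ∈ SO3) (κ : ℝ) (b : V) (g : ℝ) (y : V) :
    Qd κ (Aᵀ *ᵥ b) g y = Qd κ b g (A *ᵥ y) := by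
  unfold Qd
  have h1 : (A *ᵥ y) ⬝ᵥ (A *ᵥ y) = y ⬝ᵥ y := Pool.Agent.Helper26.LU.dot_mulVec hA y y
  have h2 : (Aᵀ *ᵥ b) ⬝ᵥ y = b ⬝ᵥ (A *ᵥ y) := by
    rw [Matrix.dotProduct_mulVec, Matrix.mulVec_transpose]
  rw [h1, h2]

/-- the compatibility expression vanishes on the whole rotation group -/
lemma dI_zero (hE : G_EXT) {v : Fin 4 → V} {κ : Fin 4 → ℝ} {b : Fin 4 → V} {g : Fin 4 → ℝ}
    {U : Set M3} (hU : IsOpen U) (hne : (U ∩ (SO3 : Set M3)).Nonempty)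
    (h : ∀ R ∈ U, R ∈ SO3 → ∃ t, ∀ i, Qd (κ i) (b i) (g i) (R *ᵥ v i + t) = 0)
    {A : M3} (hA : A ∈ SO3) : ∀ R ∈ SO3, dI κ (fun i => Aᵀ *ᵥ b i) g (fun i => R *ᵥ v i) = 0 := by
  have hA1 := ((Pool.Agent.Helper26.LU.mem_SO3 A).1 hA).1
  refine hE (fun z => dI κ (fun i => Aᵀ *ᵥ b i) g z) v {R | A * R ∈ U} (dI_an _ _ _) ?_ ?_ ?_
  · exact hU.preimage (by fun_prop)
  · obtain ⟨R, hRU, hRS⟩ := hne
    refine ⟨Aᵀ * R, ?_, Pool.Agent.Helper26.LU.SO3_mul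
      (Pool.Agent.Helper26.LU.SO3_transpose hA) hRS⟩
    show A * (Aᵀ * R) ∈ U
    rw [← mul_assoc, hA1, one_mul]
    exact hRU
  · intro R hR hRS
    obtain ⟨t, ht⟩ := h (A * R) hR (Pool.Agent.Helper26.LU.SO3_mul hA hRS)
    refine goalB1 κ _ g _ (Aᵀ *ᵥ t) fun i => ?_
    rw [Qd_rot hA, Matrix.mulVec_add, Matrix.mulVec_mulVec, Matrix.mulVec_mulVec, hA1,
      Matrix.one_mulVec]
    exact ht i

lemma D4_shift (κ y C : Fin 4 → ℂ) (y0 l : ℂ) :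
    D4 κ (fun i => κ i * (y0 + l * y i)) C (fun i => C i * (y0 + l * y i)) =
      l ^ 2 * D4 κ (fun i => κ i * y i) C (fun i => C i * y i) := by
  rw [D4_expand, D4_expand]
  ring

lemma cm_lin (A : M3) (x y : ℝ) (b c : V) :
    cm (Aᵀ *ᵥ (x • b - y • c)) = (x : ℂ) * cm (Aᵀ *ᵥ b) - (y : ℂ) * cm (Aᵀ *ᵥ c) := by
  rw [Matrix.mulVec_sub, Matrix.mulVec_smul, Matrix.mulVec_smul]
  unfold cm
  simp only [Pi.sub_apply, Pi.smul_apply, smul_eq_mul]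
  push_cast
  ring

/-- **Packet SP-B8.** -/
theorem goalB8 (hE : G_EXT) : G_B8 := by
  intro v a κ b g U hv hU hne h A hA
  obtain ⟨z₀, O, l, hO, hl, -, hnf⟩ := goalNF v a hv
  have hdI := dI_zero hE hU hne h hA
  have hO1 := Pool.Agent.Helper26.LU.SO3_left hO
  have key : ∀ (Pm : M3), Pm ∈ SO3 → D4 (fun i => (κ i : ℂ))
      (fun i => (κ i : ℂ) * (((Pm *ᵥ tt i) 0 : ℂ) + Complex.I * ((Pm *ᵥ tt i) 1 : ℂ)))
      (fun i => cm (Aᵀ *ᵥ b i))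
      (fun i => cm (Aᵀ *ᵥ b i) * (((Pm *ᵥ tt i) 0 : ℂ) + Complex.I * ((Pm *ᵥ tt i) 1 : ℂ))) = 0 := by
    intro Pm hPm
    have h4 := goalB4 κ (fun i => Aᵀ *ᵥ b i) g (fun i => (Pm * Oᵀ) *ᵥ v i) (by
      intro θ
      have h5 := hdI (Rot θ * (Pm * Oᵀ)) (Pool.Agent.Helper26.LU.SO3_mul
        (Pool.Agent.Helper26.LU.Rot_SO3 θ) (Pool.Agent.Helper26.LU.SO3_mul hPm
          (Pool.Agent.Helper26.LU.SO3_transpose hO)))
      simpa only [Matrix.mulVec_mulVec] using h5)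
    have h6 : ∀ i, (Pm * Oᵀ) *ᵥ v i = (Pm * Oᵀ) *ᵥ z₀ + l • (Pm *ᵥ tt i) := by
      intro i
      rw [hnf i, Matrix.mulVec_add, Matrix.mulVec_smul, Matrix.mulVec_mulVec, mul_assoc, hO1,
        mul_one]
    set y0 : ℂ := ((((Pm * Oᵀ) *ᵥ z₀) 0 : ℝ) : ℂ) + Complex.I * ((((Pm * Oᵀ) *ᵥ z₀) 1 : ℝ) : ℂ)
      with hy0
    have h7 : ∀ i, ((((Pm * Oᵀ) *ᵥ v i) 0 : ℝ) : ℂ) + Complex.I * ((((Pm * Oᵀ) *ᵥ v i) 1 : ℝ) : ℂ) =
        y0 + (l : ℂ) * (((Pm *ᵥ tt i) 0 : ℂ) + Complex.I * ((Pm *ᵥ tt i) 1 : ℂ)) := by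
      intro i
      rw [h6 i, hy0]
      simp only [Pi.add_apply, Pi.smul_apply, smul_eq_mul]
      push_cast
      ring
    simp only [h7] at h4
    rw [D4_shift] at h4
    have hl' : ((l : ℂ)) ^ 2 ≠ 0 := pow_ne_zero _ (by exact_mod_cast hl)
    exact (mul_eq_zero.1 h4).resolve_left hl'
  have k1 := key 1 (one_mem _)
  have k2 := key cyc cyc_SO3
  simp only [Matrix.one_mulVec] at k1
  simp only [cyc_mulVec] at k2
  obtain ⟨h1, h2, h3⟩ := goalB5 (fun i => (κ i : ℂ)) (fun i => cm (Aᵀ *ᵥ b i)) k1 k2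
  refine ⟨?_, ?_, ?_⟩
  · rw [cm_lin, cm_lin]; exact h1
  · rw [cm_lin, cm_lin]; exact h2
  · rw [cm_lin, cm_lin]; exact h3

end Pool.Agent.Helper13.SP
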